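import Pool.Agent.Q117.YT.Formula
import Pool.Agent.Helper47.YT.Small

/-!
`MP_ed556a_co`, question 2.  Every finite tree `T` satisfies `Y(T) ≤ 9 S(T) + P(T) + 6`, and the
constant `6` cannot be made smaller: the caterpillar with inner degrees `3, 4, 4, 3` attains
equality.

Proof. With `a_v = deg v - 1`, `s_v` and `q_v` the sums of `a_u` and `a_u ^ 2` over the neighbours
`u` of `v`, one has
`8 (Y - 9 S - P) = ∑_v (4 a_v (a_v - 1) s_v - 4 (s_v ^ 2 - q_v) - 3 (a_v+1) a_v (a_v-1) (a_v-2))`.
The summand at `v` is at most `24 (1 - a_v)` plus the sum of `H8 a_v a_u` over the neighbours `u`, for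
a suitable antisymmetric function `H8` (`local_ineq`), and the sum of `24 (1 - a_v)` over the
vertices of a tree is `48`.
-/

set_option autoImplicit false

namespace Pool.Agent.Results.MP_ed556a_co.SharpYBound

open SimpleGraph Finset Pool.Agent.Q117.YT Pool.Agent.Helper47.YT

theorem flow_zero {V : Type} [Fintype V] [DecidableEq V] (G : SimpleGraph V) [DecidableRel G.Adj] :
    ∑ v, ∑ u ∈ G.neighborFinset v, H8 (av G v) (av G u) = 0 := by
  have h1 : ∑ v, ∑ u ∈ G.neighborFinset v, H8 (av G v) (av G u)
      = ∑ v, ∑ u, if G.Adj v u then H8 (av G v) (av G u) else 0 := by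
    apply Finset.sum_congr rfl
    intro v _
    rw [← Finset.sum_filter]
    apply Finset.sum_congr
    · ext u; simp
    · intro _ _; rfl
  have h2 : ∑ v, ∑ u, (if G.Adj v u then H8 (av G v) (av G u) else 0)
      = - ∑ v, ∑ u, (if G.Adj v u then H8 (av G v) (av G u) else 0) := by
    conv_lhs => rw [Finset.sum_comm]
    rw [← Finset.sum_neg_distrib]
    apply Finset.sum_congr rfl
    intro v _
    rw [← Finset.sum_neg_distrib]
    apply Finset.sum_congr rfl
    intro u _
    by_cases h : G.Adj v u
    · rw [if_pos h, if_pos h.symm, H8_antisymm]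
    · rw [if_neg h, if_neg (fun h' => h h'.symm)]
      ring
  rw [h1]
  linarith

theorem bound (V : Type) [Fintype V] (T : SimpleGraph V) (hT : T.IsTree) :
    cY T ≤ 9 * cS T + cP T + 6 := by
  classical
  have hY := formula_Y T hT.isAcyclic
  have hP := formula_P T hT.isAcyclic
  have hS := formula_S T
  have hloc : ∀ v, lhs (T.neighborFinset v) (av T) (av T v)
      ≤ 24 * (1 - av T v) + ∑ u ∈ T.neighborFinset v, H8 (av T v) (av T u) := by
    intro v
    apply local_ineq
    · intro u hu
      rw [mem_neighborFinset] at hu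
      have h1 : 1 ≤ T.degree u := by
        rw [Nat.one_le_iff_ne_zero, ← Nat.pos_iff_ne_zero, degree_pos_iff_exists_adj]
        exact ⟨v, hu.symm⟩
      unfold av
      omega
    · rw [card_neighborFinset_eq_degree]
      unfold av
      ring
  have hsum := Finset.sum_le_sum (fun v (_ : v ∈ (Finset.univ : Finset V)) => hloc v)
  have hl : ∑ v, lhs (T.neighborFinset v) (av T) (av T v)
      = 8 * (cY T : ℤ) - 8 * (cP T : ℤ) - 72 * (cS T : ℤ) := by
    have e : ∀ v, lhs (T.neighborFinset v) (av T) (av T v)
        = 4 * (∑ u ∈ T.neighborFinset v, av T u * (av T v * (av T v - 1)))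
          - 4 * ((∑ u ∈ T.neighborFinset v, av T u) ^ 2 - ∑ u ∈ T.neighborFinset v, av T u ^ 2)
          - 3 * ((av T v + 1) * av T v * (av T v - 1) * (av T v - 2)) := by
      intro v
      unfold lhs
      rw [← Finset.sum_mul]
      ring
    rw [Finset.sum_congr rfl (fun v _ => e v), Finset.sum_sub_distrib, Finset.sum_sub_distrib,
      ← Finset.mul_sum, ← Finset.mul_sum, ← Finset.mul_sum, ← hY, ← hP, ← hS]
    ring
  have hr : ∑ v, (24 * (1 - av T v) + ∑ u ∈ T.neighborFinset v, H8 (av T v) (av T u)) = 48 := by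
    rw [Finset.sum_add_distrib, flow_zero, add_zero]
    have h1 := T.sum_degrees_eq_twice_card_edges
    have h2 := (SimpleGraph.isTree_iff_connected_and_card.1 hT).2
    have h3 : Nat.card T.edgeSet = T.edgeFinset.card := by
      rw [Nat.card_eq_fintype_card, ← Set.toFinset_card]
      rfl
    rw [h3, Nat.card_eq_fintype_card] at h2
    have h4 : ∑ v, (24 * (1 - av T v)) = 48 * (Fintype.card V : ℤ) - 24 * ∑ v, (T.degree v : ℤ) := by
      have : ∀ v : V, 24 * (1 - av T v) = 48 - 24 * (T.degree v : ℤ) := by
        intro v; unfold av; ring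
      rw [Finset.sum_congr rfl (fun v _ => this v), Finset.sum_sub_distrib, ← Finset.mul_sum,
        Finset.sum_const, Finset.card_univ, nsmul_eq_mul]
      ring
    have h5 : ∑ v, (T.degree v : ℤ) = 2 * (T.edgeFinset.card : ℤ) := by exact_mod_cast h1
    rw [h4, h5, ← h2]
    push_cast
    ring
  rw [hl, hr] at hsum
  omega

/-- the parent of a vertex -/
def par (v : Fin 12) : Fin 12 := ![0, 0, 1, 2, 0, 0, 1, 1, 2, 2, 3, 3] v

/-- the caterpillar with spine `0 - 1 - 2 - 3` and two leaves at every vertex of the spine -/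
def cat : SimpleGraph (Fin 12) := SimpleGraph.fromRel (fun u v => par u = v)

instance : DecidableRel cat.Adj := by unfold cat; infer_instance

theorem cat_par : ∀ v : Fin 12, v ≠ 0 → cat.Adj v (par v) := by decide

theorem par_lt : ∀ v : Fin 12, v ≠ 0 → (par v).val < v.val := by decide

theorem cat_tree : cat.IsTree := by
  rw [SimpleGraph.isTree_iff_connected_and_card]
  refine ⟨?_, ?_⟩
  · have h : ∀ n : ℕ, ∀ v : Fin 12, v.val = n → cat.Reachable v 0 := by
      intro n
      induction n using Nat.strong_induction_on with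
      | _ n ih =>
        intro v hv
        by_cases h0 : v = 0
        · rw [h0]
        · have h1 : cat.Adj v (par v) := cat_par v h0
          have h2 : (par v).val < v.val := par_lt v h0
          exact h1.reachable.trans (ih _ (hv ▸ h2) _ rfl)
    have : Nonempty (Fin 12) := ⟨0⟩
    exact ⟨fun x y => (h _ x rfl).trans (h _ y rfl).symm⟩
  · have h3 : Nat.card cat.edgeSet = cat.edgeFinset.card := by
      rw [Nat.card_eq_fintype_card, ← Set.toFinset_card]
      rfl
    rw [h3]
    have h4 : Nat.card (Fin 12) = 12 := by simp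
    rw [h4]
    have h1 := cat.sum_degrees_eq_twice_card_edges
    have h2 : ∑ v, cat.degree v = 22 := by decide +kernel
    omega

theorem cat_eq : cY cat = 9 * cS cat + cP cat + 6 := by
  have hY := formula_Y cat cat_tree.isAcyclic
  have hP := formula_P cat cat_tree.isAcyclic
  have hS := formula_S cat
  have h1 : ∑ v, ∑ u ∈ cat.neighborFinset v, av cat u * (av cat v * (av cat v - 1)) = 72 := by
    decide +kernel
  have h2 : ∑ v, ((∑ u ∈ cat.neighborFinset v, av cat u) ^ 2
      - ∑ u ∈ cat.neighborFinset v, av cat u ^ 2) = 24 := by decide +kernel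
  have h3 : ∑ v, (av cat v + 1) * av cat v * (av cat v - 1) * (av cat v - 2) = 48 := by
    decide +kernel
  rw [h1] at hY
  rw [h2] at hP
  rw [h3] at hS
  omega

/-- Every finite tree satisfies `Y ≤ 9 S + P + 6`, and there is a tree (on 12 vertices) with
equality, so that `6` is the least possible constant. -/
theorem result :
    (∀ (V : Type) [Fintype V] (T : SimpleGraph V), T.IsTree → cY T ≤ 9 * cS T + cP T + 6) ∧
    ∃ T : SimpleGraph (Fin 12), T.IsTree ∧ cY T = 9 * cS T + cP T + 6 :=
  ⟨bound, cat, cat_tree, cat_eq⟩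

end Pool.Agent.Results.MP_ed556a_co.SharpYBound
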